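import Pool.Agent.Helper64.Rig.Basics

/-!
# Packet Krull: the affine cone over the covering curve has dimension two
-/

namespace Pool.Agent.Helper37.Rig

open Pool.Agent.Helper64.Rig MvPolynomial

/-- The Krull dimension is invariant under injective integral extensions. -/
theorem ringKrullDim_eq_of_integral (R S : Type) [CommRing R] [CommRing S] [IsDomain R] [IsDomain S]
    [Algebra R S] [Algebra.IsIntegral R S] (hinj : Function.Injective (algebraMap R S)) :
    ringKrullDim S = ringKrullDim R := by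
  apply le_antisymm
  · refine Order.krullDim_le_of_strictMono (PrimeSpectrum.comap (algebraMap R S)) ?_
    intro P Q hPQ
    have hPQ' : P.asIdeal < Q.asIdeal := hPQ
    exact Ideal.IsIntegral.comap_lt_comap (R := R) hPQ'
  · rw [ringKrullDim, ringKrullDim, Order.krullDim_eq_iSup_length, Order.krullDim_eq_iSup_length]
    refine WithBot.coe_le_coe.2 (iSup_le fun l => ?_)
    obtain ⟨P, hP, hPl⟩ := Ideal.exists_ideal_over_prime_of_isIntegral
      (RelSeries.head l).asIdeal (⊥ : Ideal S) (by
        rw [Ideal.comap_bot_of_injective _ hinj]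
        exact bot_le)
    have hlo : P.LiesOver (RelSeries.head l).asIdeal := ⟨hPl.2.symm⟩
    have hprime : P.IsPrime := hPl.1
    obtain ⟨L, hL, -, -⟩ := Ideal.exists_ltSeries_of_hasGoingUp l P
    rw [← hL]
    exact le_iSup (fun p : LTSeries (PrimeSpectrum S) => (p.length : ℕ∞)) L

section
variable {K : Type} [Field K] [Algebra ℂ K] {ζ : ℂ} {x : Jx → K}

theorem krull_core (h : Cov ζ x) (B : Type) [CommRing B] [IsDomain B] [Algebra ℂ B]
    (q : MvPolynomial Jx ℂ →ₐ[ℂ] B) (hsurj : Function.Surjective q)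
    (hq : ∀ F G : MvPolynomial Jx ℂ, aeval x F = aeval x G → q F = q G)
    (hq' : ∀ F : MvPolynomial Jx ℂ, q F = 0 → aeval x F = 0) : ringKrullDim B = 2 := by
  have hpr : ∀ i, aeval x (pr (X : Jx → MvPolynomial Jx ℂ) i) = pr x i := by
    intro i; simp [pr]
  let f : MvPolynomial (Fin 2) ℂ →ₐ[ℂ] B :=
    aeval ![q (pr X 1), q (pr X 2)]
  have hf : ∀ F : MvPolynomial (Fin 2) ℂ, f F = q (aeval ![pr X 1, pr X 2] F) := by
    intro F
    have : f = q.comp (aeval ![pr X 1, pr X 2]) := by
      ext i
      fin_cases i <;> simp [f]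
    rw [this]
    rfl
  have hfinj : Function.Injective f := by
    rw [injective_iff_map_eq_zero]
    intro F hF
    rw [hf] at hF
    have h1 := hq' _ hF
    apply indep_lin h
    rw [← h1, ← AlgHom.comp_apply]
    congr 1
    ext i
    fin_cases i <;> simp [pr]
  let _ : Algebra (MvPolynomial (Fin 2) ℂ) B := f.toRingHom.toAlgebra
  have hmap : ∀ F, algebraMap (MvPolynomial (Fin 2) ℂ) B F = f F :=
    fun F => rfl
  have hC : ∀ c : ℂ, IsIntegral (MvPolynomial (Fin 2) ℂ) (q (C c)) := by
    intro c
    have : q (C c) = algebraMap (MvPolynomial (Fin 2) ℂ) B (C c) := by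
      rw [hmap]
      have e1 : q (C c) = algebraMap ℂ B c := q.commutes c
      have e2 : f (C c) = algebraMap ℂ B c := f.commutes c
      rw [e1, e2]
    rw [this]
    exact isIntegral_algebraMap
  have h1 : IsIntegral (MvPolynomial (Fin 2) ℂ) (q (pr X 1)) := by
    have : q (pr X 1) = algebraMap (MvPolynomial (Fin 2) ℂ) B (X 0) := by
      rw [hmap]
      exact (aeval_X ![q (pr X 1), q (pr X 2)] (0 : Fin 2)).symm
    rw [this]
    exact isIntegral_algebraMap
  have h2 : IsIntegral (MvPolynomial (Fin 2) ℂ) (q (pr X 2)) := by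
    have : q (pr X 2) = algebraMap (MvPolynomial (Fin 2) ℂ) B (X 1) := by
      rw [hmap]
      exact (aeval_X ![q (pr X 1), q (pr X 2)] (1 : Fin 2)).symm
    rw [this]
    exact isIntegral_algebraMap
  have h0 : IsIntegral (MvPolynomial (Fin 2) ℂ) (q (pr X 0)) := by
    refine IsIntegral.of_pow (n := 5) (by norm_num) ?_
    have : q (pr X 0) ^ 5 = -(q (pr X 1) ^ 5 + q (pr X 2) ^ 5) := by
      rw [← map_pow, ← map_pow, ← map_pow, ← map_add, ← map_neg]
      apply hq
      simp only [map_pow, map_neg, map_add, hpr]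
      exact pr_pow_five h 0
    rw [this]
    exact ((h1.pow 5).add (h2.pow 5)).neg
  have hp : ∀ i, IsIntegral (MvPolynomial (Fin 2) ℂ) (q (pr X i)) := by
    intro i
    fin_cases i
    · exact h0
    · exact h1
    · exact h2
  have hx : ∀ j, IsIntegral (MvPolynomial (Fin 2) ℂ) (q (X j)) := by
    intro j
    refine IsIntegral.of_pow (n := 5) (by norm_num) ?_
    have : q (X j) ^ 5 = -(q (pr X (j.1 + 1)) + q (C (ζ ^ (j.2 : ℕ))) * q (pr X (j.1 + 2))) := by
      rw [← map_pow, ← map_mul, ← map_add, ← map_neg]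
      apply hq
      simp only [map_pow, map_neg, map_add, map_mul, hpr, aeval_X, aeval_C]
      have := pow_five h j
      simpa [el] using this
    rw [this]
    exact ((hp _).add ((hC _).mul (hp _))).neg
  have hF : ∀ F : MvPolynomial Jx ℂ, IsIntegral (MvPolynomial (Fin 2) ℂ) (q F) := by
    intro F
    induction F using MvPolynomial.induction_on with
    | C a => exact hC a
    | add p r hp hr => rw [map_add]; exact hp.add hr
    | mul_X p j hp => rw [map_mul]; exact hp.mul (hx j)
  have hint : Algebra.IsIntegral (MvPolynomial (Fin 2) ℂ) B := by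
    refine ⟨fun b => ?_⟩
    obtain ⟨F, rfl⟩ := hsurj b
    exact hF F
  rw [ringKrullDim_eq_of_integral (MvPolynomial (Fin 2) ℂ) B hfinj,
    MvPolynomial.ringKrullDim_of_isNoetherianRing, ringKrullDim_eq_zero_of_field]
  simp

end

theorem pf_Krull : StmtKrull := by
  intro K _ _ ζ x h
  have hprime : (II x).IsPrime := RingHom.ker_isPrime _
  refine krull_core h (MvPolynomial Jx ℂ ⧸ II x) (Ideal.Quotient.mkₐ ℂ (II x))
    (Ideal.Quotient.mkₐ_surjective _ _) ?_ ?_
  · intro F G hFG
    show Ideal.Quotient.mk (II x) F = Ideal.Quotient.mk (II x) G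
    rw [Ideal.Quotient.mk_eq_mk_iff_sub_mem]
    show aeval x (F - G) = 0
    rw [map_sub, hFG, sub_self]
  · intro F hF
    have : F ∈ II x := Ideal.Quotient.eq_zero_iff_mem.1 hF
    exact this

end Pool.Agent.Helper37.Rig
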