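import Pool.Agent.Helper64.Rig.Basics

/-!
# Packet Loc: the equations `x j ^ 5 + el j` are generically reduced along the curve

The localization `T` of `ℂ[X] ⧸ (E j)` at the prime ideal of the curve is formally unramified over
the field `ℂ(p 1, p 2)`, hence reduced, hence a field.
-/

namespace Pool.Agent.Helper37.Rig

open Pool.Agent.Helper64.Rig MvPolynomial

/-- A local ring `T` which is a localization of a finitely generated algebra over a field `κ` and
whose Kähler differentials vanish is a field. -/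
theorem isField_of_omega (κ T : Type) [Field κ] [CommRing T] [IsLocalRing T] [Algebra κ T]
    [Algebra.EssFiniteType κ T] (hO : ∀ a : T, KaehlerDifferential.D κ T a = 0) : IsField T := by
  have h1 : Algebra.FormallyUnramified κ T := by
    constructor
    have h2 := KaehlerDifferential.span_range_derivation κ T
    have h3 : Set.range (KaehlerDifferential.D κ T) = {0} := by
      ext z
      simp only [Set.mem_range, Set.mem_singleton_iff]
      constructor
      · rintro ⟨a, rfl⟩
        exact hO a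
      · rintro rfl
        exact ⟨0, hO 0⟩
    rw [h3, Submodule.span_singleton_eq_bot.2 rfl] at h2
    refine ⟨fun a b => ?_⟩
    have key : ∀ c : KaehlerDifferential κ T, c = 0 := by
      intro c
      have hc : c ∈ (⊤ : Submodule T (KaehlerDifferential κ T)) := trivial
      rw [← h2] at hc
      exact (Submodule.mem_bot T).1 hc
    rw [key a, key b]
  have h2 := Algebra.FormallyUnramified.finite_of_free κ T
  have h3 := IsArtinianRing.of_finite κ T
  have h4 := Algebra.FormallyUnramified.isReduced_of_field κ T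
  exact IsArtinianRing.isField_of_isReduced_of_isLocalRing _

theorem deriv_pow_five {κ T M : Type} [Field κ] [CommRing T] [Algebra κ T] [Algebra ℂ T]
    [AddCommGroup M] [Module T M] [Module κ M] (D : Derivation κ T M) {a : T} (ha : IsUnit a)
    (h5 : D (a ^ 5) = 0) : D a = 0 := by
  rw [Derivation.leibniz_pow] at h5
  have h6 : ((5 : T) * a ^ 4) • D a = 0 := by
    rw [mul_smul, ← h5, ← Nat.cast_smul_eq_nsmul T]
    norm_num
  have h7 : IsUnit (5 : T) := by
    have := (isUnit_iff_ne_zero.2 (by norm_num : (5 : ℂ) ≠ 0)).map (algebraMap ℂ T)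
    rwa [map_ofNat] at this
  exact (h7.mul (ha.pow 4)).smul_eq_zero.1 h6

section
variable {K : Type} [Field K] [Algebra ℂ K] {ζ : ℂ} {x : Jx → K}

theorem isField_core (h : Cov ζ x) (T : Type) [CommRing T] [IsLocalRing T] [Algebra ℂ T]
    [Algebra.EssFiniteType ℂ T] (ρ : MvPolynomial Jx ℂ →ₐ[ℂ] T)
    (hρunit : ∀ F : MvPolynomial Jx ℂ, aeval x F ≠ 0 → IsUnit (ρ F))
    (hE : ∀ j, ρ (EE ζ j) = 0)
    (hgen : ∀ a : T, ∃ F E : MvPolynomial Jx ℂ, IsUnit (ρ E) ∧ ρ E * a = ρ F) : IsField T := by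
  have hρE : ∀ j, ρ (X j) ^ 5 + el ζ (fun j => ρ (X j)) j = 0 := by
    intro j
    rw [← hE j]
    simp [EE, el, pr]
  let κ := FractionRing (MvPolynomial (Fin 2) ℂ)
  let ψ : MvPolynomial (Fin 2) ℂ →ₐ[ℂ] T := aeval ![ρ (pr X 1), ρ (pr X 2)]
  have hψ : ∀ F : MvPolynomial (Fin 2) ℂ, ψ F = ρ (aeval ![pr X 1, pr X 2] F) := by
    intro F
    have : ψ = ρ.comp (aeval ![pr X 1, pr X 2]) := by
      ext i
      fin_cases i <;> simp [ψ]
    rw [this]
    rfl
  have hψu : ∀ F : nonZeroDivisors (MvPolynomial (Fin 2) ℂ), IsUnit (ψ F) := by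
    intro F
    rw [hψ]
    apply hρunit
    intro h0
    have h1 : aeval ![pr x 1, pr x 2] (F : MvPolynomial (Fin 2) ℂ) = 0 := by
      rw [← h0, ← AlgHom.comp_apply]
      congr 1
      ext i
      fin_cases i <;> simp [pr]
    exact nonZeroDivisors.ne_zero F.2 (indep_lin h h1)
  let Ψ : κ →ₐ[ℂ] T :=
    IsLocalization.liftAlgHom (M := nonZeroDivisors (MvPolynomial (Fin 2) ℂ)) (f := ψ) hψu
  have hΨ : ∀ F : MvPolynomial (Fin 2) ℂ, Ψ (algebraMap _ κ F) = ψ F := by
    intro F
    exact IsLocalization.lift_eq _ F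
  let _ : Algebra κ T := Ψ.toRingHom.toAlgebra
  have hmap : ∀ z : κ, algebraMap κ T z = Ψ z := fun z => rfl
  have : IsScalarTower ℂ κ T := IsScalarTower.of_algebraMap_eq fun c => by
    rw [hmap]
    exact (Ψ.commutes c).symm
  have : Algebra.EssFiniteType κ T := Algebra.EssFiniteType.of_comp ℂ κ T
  apply isField_of_omega κ T
  -- the differentials
  set D := KaehlerDifferential.D κ T with hD
  have hDκ : ∀ z : κ, D (algebraMap κ T z) = 0 := fun z => D.map_algebraMap z
  have hDC : ∀ c : ℂ, D (algebraMap ℂ T c) = 0 := by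
    intro c
    rw [IsScalarTower.algebraMap_apply ℂ κ T]
    exact hDκ _
  have hD1 : D (ρ (pr X 1)) = 0 := by
    have := hDκ (algebraMap (MvPolynomial (Fin 2) ℂ) κ (X 0))
    rwa [hmap, hΨ, show ψ (X 0) = ρ (pr X 1) from aeval_X _ _] at this
  have hD2 : D (ρ (pr X 2)) = 0 := by
    have := hDκ (algebraMap (MvPolynomial (Fin 2) ℂ) κ (X 1))
    rwa [hmap, hΨ, show ψ (X 1) = ρ (pr X 2) from aeval_X _ _] at this
  have hprel : ρ (pr X 0) ^ 5 = -(ρ (pr X 1) ^ 5 + ρ (pr X 2) ^ 5) := by
    have h1 : ∀ i, ρ (pr X i) = pr (fun j => ρ (X j)) i := by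
      intro i; simp [pr]
    rw [h1, h1, h1]
    have h2 := prod_add_zeta h.prim (pr (fun j => ρ (X j)) 1) (pr (fun j => ρ (X j)) 2)
    rw [← h2]
    have h3 : ∀ k : Fin 5, (fun j => ρ (X j)) ((0 : Fin 3), k) ^ 5
        = -(pr (fun j => ρ (X j)) 1 + algebraMap ℂ T (ζ ^ (k : ℕ)) * pr (fun j => ρ (X j)) 2) := by
      intro k
      have := hρE (0, k)
      exact eq_neg_of_add_eq_zero_left this
    conv_lhs => rw [pr, ← Finset.prod_pow]
    rw [Finset.prod_congr rfl (fun k _ => h3 k), Finset.prod_neg]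
    simp only [Finset.card_univ, Fintype.card_fin]
    ring
  have hD0 : D (ρ (pr X 0)) = 0 := by
    refine deriv_pow_five D ?_ ?_
    · apply hρunit
      have := pr_ne h 0
      simpa [pr] using this
    · rw [hprel, map_neg, map_add, Derivation.leibniz_pow, Derivation.leibniz_pow, hD1, hD2]
      simp
  have hDp : ∀ i, D (ρ (pr X i)) = 0 := by
    intro i
    fin_cases i
    · exact hD0
    · exact hD1
    · exact hD2
  have hDx : ∀ j, D (ρ (X j)) = 0 := by
    intro j
    refine deriv_pow_five D ?_ ?_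
    · apply hρunit
      rw [aeval_X]
      exact x_ne h j
    · rw [eq_neg_of_add_eq_zero_left (hρE j), map_neg, neg_eq_zero]
      have h1 : el ζ (fun j => ρ (X j)) j =
          ρ (pr X (j.1 + 1)) + algebraMap ℂ T (ζ ^ (j.2 : ℕ)) * ρ (pr X (j.1 + 2)) := by
        simp [el, pr]
      rw [h1, map_add, Derivation.leibniz, hDp, hDp, hDC]
      simp
  have hDρ : ∀ F : MvPolynomial Jx ℂ, D (ρ F) = 0 := by
    intro F
    induction F using MvPolynomial.induction_on with
    | C a =>
      have : ρ (C a) = algebraMap ℂ T a := ρ.commutes a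
      rw [this]
      exact hDC a
    | add p q hp hq => rw [map_add, map_add, hp, hq, add_zero]
    | mul_X p j hp => rw [map_mul, Derivation.leibniz, hp, hDx, smul_zero, smul_zero, add_zero]
  intro a
  obtain ⟨F, E, hu, hFE⟩ := hgen a
  have h4 := congrArg D hFE
  rw [Derivation.leibniz, hDρ, hDρ, smul_zero, add_zero] at h4
  exact hu.smul_eq_zero.1 h4

end

theorem pf_Loc : StmtLoc := by
  intro K _ _ ζ x h G hG
  classical
  set I : Ideal (MvPolynomial Jx ℂ) := Ideal.span (Set.range (EE ζ)) with hI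
  have hel : ∀ j, aeval x (el ζ (X : Jx → MvPolynomial Jx ℂ) j) = el ζ x j := by
    intro j
    simp [el, pr]
  have hIker : ∀ a ∈ I, aeval x a = 0 := by
    intro a ha
    have : I ≤ RingHom.ker (aeval x : MvPolynomial Jx ℂ →ₐ[ℂ] K) := by
      rw [hI, Ideal.span_le]
      rintro _ ⟨j, rfl⟩
      show aeval x (EE ζ j) = 0
      rw [EE, map_add, map_pow, aeval_X, hel]
      exact h.rel j
    exact this ha
  let φ : (MvPolynomial Jx ℂ ⧸ I) →ₐ[ℂ] K := Ideal.Quotient.liftₐ I (aeval x) hIker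
  have hφ : ∀ F : MvPolynomial Jx ℂ, φ (Ideal.Quotient.mk I F) = aeval x F := fun F => rfl
  have hP : (RingHom.ker φ).IsPrime := RingHom.ker_isPrime φ
  let ρ : MvPolynomial Jx ℂ →ₐ[ℂ] Localization.AtPrime (RingHom.ker φ) :=
    (IsScalarTower.toAlgHom ℂ (MvPolynomial Jx ℂ ⧸ I) (Localization.AtPrime (RingHom.ker φ))).comp
      (Ideal.Quotient.mkₐ ℂ I)
  have hρ : ∀ F, ρ F = algebraMap (MvPolynomial Jx ℂ ⧸ I) (Localization.AtPrime (RingHom.ker φ))
      (Ideal.Quotient.mk I F) := fun F => rfl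
  have hρunit : ∀ F : MvPolynomial Jx ℂ, aeval x F ≠ 0 → IsUnit (ρ F) := by
    intro F hF
    have hm : Ideal.Quotient.mk I F ∈ (RingHom.ker φ).primeCompl := hF
    exact IsLocalization.map_units (Localization.AtPrime (RingHom.ker φ))
      (⟨Ideal.Quotient.mk I F, hm⟩ : (RingHom.ker φ).primeCompl)
  have hfield := isField_core h (Localization.AtPrime (RingHom.ker φ)) ρ hρunit
    (fun j => by
      have hj : EE ζ j ∈ I := Ideal.subset_span (Set.mem_range_self j)
      rw [hρ, Ideal.Quotient.eq_zero_iff_mem.2 hj, map_zero])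
    (fun a => by
      obtain ⟨r, s, rfl⟩ := IsLocalization.exists_mk'_eq (RingHom.ker φ).primeCompl a
      obtain ⟨F, hF⟩ := Ideal.Quotient.mk_surjective r
      obtain ⟨E, hE⟩ := Ideal.Quotient.mk_surjective (s : MvPolynomial Jx ℂ ⧸ I)
      refine ⟨F, E, ?_, ?_⟩
      · rw [hρ, hE]
        exact IsLocalization.map_units _ s
      · rw [hρ, hρ, hE, hF]
        exact IsLocalization.mk'_spec' _ r s)
  -- conclusion
  have hG0 : algebraMap (MvPolynomial Jx ℂ ⧸ I) (Localization.AtPrime (RingHom.ker φ))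
      (Ideal.Quotient.mk I G) = 0 := by
    by_contra hne
    obtain ⟨b, hb⟩ := hfield.mul_inv_cancel hne
    have hu : IsUnit (algebraMap (MvPolynomial Jx ℂ ⧸ I) (Localization.AtPrime (RingHom.ker φ))
      (Ideal.Quotient.mk I G)) := IsUnit.of_mul_eq_one _ hb
    rw [IsLocalization.AtPrime.isUnit_to_map_iff _ (RingHom.ker φ)] at hu
    exact hu hG
  obtain ⟨s, hs⟩ := (IsLocalization.map_eq_zero_iff (RingHom.ker φ).primeCompl _ _).1 hG0
  obtain ⟨H, hH⟩ := Ideal.Quotient.mk_surjective (s : MvPolynomial Jx ℂ ⧸ I)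
  refine ⟨H, ?_, ?_⟩
  · intro h0
    apply s.2
    show φ s = 0
    rw [← hH, hφ, h0]
  · rw [← Ideal.Quotient.eq_zero_iff_mem, map_mul, hH, hs]

end Pool.Agent.Helper37.Rig
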